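import Mathlib

set_option autoImplicit false

namespace Pool.Agent.Results.MP_e10d7f_nt.PFDegree

open Matrix Polynomial

/-- `Realizable lam n`: some primitive `n × n` matrix with (nonnegative) integer entries has
spectral radius `lam`. -/
def Realizable (lam : ℝ) (n : ℕ) : Prop :=
  ∃ A : Matrix (Fin n) (Fin n) ℤ, A.IsPrimitive ∧
    spectralRadius ℂ (A.map (fun a : ℤ => (a : ℂ))) = ENNReal.ofReal lam

/-- the polynomial -/
noncomputable def f : ℚ[X] := X ^ 3 + 3 * X ^ 2 - 15 * X - 46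

lemma f_natDegree : f.natDegree = 3 := by
  unfold f; compute_degree!

lemma f_monic : f.Monic := by
  unfold f; monicity!

lemma mod5 : ∀ p q : ZMod 5, p ^ 3 + 3 * p ^ 2 * q - 15 * p * q ^ 2 - 46 * q ^ 3 = 0 →
    p = 0 ∧ q = 0 := by decide

lemma no_root (r : ℚ) : r ^ 3 + 3 * r ^ 2 - 15 * r - 46 ≠ 0 := by
  intro h
  have hq : (r.den : ℚ) ≠ 0 := by exact_mod_cast r.den_nz
  have h1 : (r.num : ℚ) ^ 3 + 3 * r.num ^ 2 * r.den - 15 * r.num * r.den ^ 2 - 46 * r.den ^ 3 = 0 := by
    have h2 : r = r.num / r.den := (Rat.num_div_den r).symm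
    have h3 : (r.num : ℚ) = r * r.den := by
      rw [eq_comm]; exact Rat.mul_den_eq_num r
    rw [h3]
    linear_combination (r.den : ℚ) ^ 3 * h
  have h2 : (r.num : ℤ) ^ 3 + 3 * r.num ^ 2 * r.den - 15 * r.num * r.den ^ 2 - 46 * r.den ^ 3 = 0 := by
    exact_mod_cast h1
  have h3 := congrArg (Int.cast : ℤ → ZMod 5) h2
  push_cast at h3
  obtain ⟨h4, h5⟩ := mod5 _ _ h3
  have h6 : (5 : ℤ) ∣ r.num := (ZMod.intCast_zmod_eq_zero_iff_dvd r.num 5).1 h4
  have h7 : 5 ∣ r.den := (ZMod.natCast_eq_zero_iff r.den 5).1 h5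
  have h8 : 5 ∣ r.num.natAbs := by
    have := Int.natAbs_dvd_natAbs.2 h6
    simpa using this
  have h9 := Nat.dvd_gcd h8 h7
  rw [r.reduced] at h9
  norm_num at h9

lemma f_irreducible : Irreducible f := by
  rw [Polynomial.Monic.irreducible_iff_roots_eq_zero_of_degree_le_three f_monic
    (by rw [f_natDegree]; norm_num) (by rw [f_natDegree])]
  rw [Multiset.eq_zero_iff_forall_notMem]
  intro r hr
  rw [mem_roots f_monic.ne_zero, IsRoot.def] at hr
  apply no_root r
  simpa [f] using hr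

lemma indep {lam : ℝ} (h : lam ^ 3 + 3 * lam ^ 2 - 15 * lam - 46 = 0) {a b c : ℤ}
    (habc : (a : ℝ) * lam ^ 2 + b * lam + c = 0) : a = 0 ∧ b = 0 ∧ c = 0 := by
  have haeval : aeval lam f = 0 := by
    simp only [f, map_sub, map_add, map_mul, map_pow, aeval_X, map_ofNat]
    exact h
  have hmin : minpoly ℚ lam = f :=
    (minpoly.eq_of_irreducible_of_monic f_irreducible haeval f_monic).symm
  have hg : (C (a : ℚ) * X ^ 2 + C (b : ℚ) * X + C (c : ℚ) : ℚ[X]) = 0 := by
    by_contra hne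
    have h1 := minpoly.degree_le_of_ne_zero ℚ lam hne (by simpa using habc)
    rw [hmin, degree_eq_natDegree f_monic.ne_zero, f_natDegree] at h1
    have h2 := h1.trans (degree_quadratic_le)
    norm_num at h2
  have hco : ∀ k, (C (a : ℚ) * X ^ 2 + C (b : ℚ) * X + C (c : ℚ) : ℚ[X]).coeff k = 0 := by
    intro k; rw [hg, coeff_zero]
  refine ⟨?_, ?_, ?_⟩
  · have := hco 2
    rw [coeff_add, coeff_add, coeff_C_mul, coeff_C_mul, coeff_X_pow, coeff_X, coeff_C] at this
    simpa using this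
  · have := hco 1
    rw [coeff_add, coeff_add, coeff_C_mul, coeff_C_mul, coeff_X_pow, coeff_X, coeff_C] at this
    simpa using this
  · have := hco 0
    rw [coeff_add, coeff_add, coeff_C_mul, coeff_C_mul, coeff_X_pow, coeff_X, coeff_C] at this
    simpa using this

lemma excl {lam : ℝ} (h : lam ^ 3 + 3 * lam ^ 2 - 15 * lam - 46 = 0) {t s d : ℤ}
    (ht : 0 ≤ t) (hp : ¬ (t = 3 ∧ s = -15 ∧ d = -46)) {μ : ℂ}
    (hμ : μ ^ 3 - t * μ ^ 2 + s * μ - d = 0) (hn : ‖μ‖ = lam) : False := by
  obtain ⟨x, y⟩ := μ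
  have hsq : x ^ 2 + y ^ 2 = lam ^ 2 := by
    rw [← hn, Complex.sq_norm, Complex.normSq_mk]; ring
  have hre := congrArg Complex.re hμ
  have him := congrArg Complex.im hμ
  simp [pow_succ] at hre him
  by_cases hy : y = 0
  · subst hy
    have hx : x = lam ∨ x = -lam := by
      apply sq_eq_sq_iff_eq_or_eq_neg.1; linarith
    rcases hx with rfl | rfl
    · have h1 := indep h (a := t + 3) (b := -(s + 15)) (c := d - 46)
        (by push_cast; linear_combination h - hre)
      omega
    · have h1 := indep h (a := t - 3) (b := s + 15) (c := d + 46)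
        (by push_cast; linear_combination -h - hre)
      apply hp
      omega
  · have him2 : 3 * x ^ 2 - y ^ 2 - 2 * t * x + s = 0 := by
      have : y * (3 * x ^ 2 - y ^ 2 - 2 * t * x + s) = 0 := by linear_combination him
      rcases mul_eq_zero.1 this with h1 | h1
      · exact absurd h1 hy
      · exact h1
    -- nu = t - 2 x is the third root
    have hd : (t - 2 * x) * lam ^ 2 = d := by
      rw [← hsq]; linear_combination hre - x * him2
    have hs : (s : ℝ) = lam ^ 2 + 2 * x * (t - 2 * x) := by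
      rw [← hsq]; linear_combination him2
    have hrel : lam ^ 6 - s * lam ^ 4 + t * d * lam ^ 2 - (d : ℝ) ^ 2 = 0 := by
      rw [hs, ← hd]; ring
    have h1 := indep h (a := 435 - 24 * s + t * d) (b := 39 - s) (c := -3266 + 138 * s - d ^ 2)
      (by
        push_cast
        linear_combination hrel - (lam ^ 3 - 3 * lam ^ 2 + (24 - s) * lam + (-71 + 3 * s)) * h)
    obtain ⟨h2, h3, h4⟩ := h1
    have h5 : s = 39 := by omega
    subst h5
    have h6 : t * d = 501 := by omega
    have h7 : d ^ 2 = 2116 := by omega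
    have h8 : d = 46 ∨ d = -46 := by
      have : (d - 46) * (d + 46) = 0 := by linear_combination h7
      rcases mul_eq_zero.1 this with h | h
      · left; omega
      · right; omega
    rcases h8 with rfl | rfl <;> omega


lemma exists_roots : ∃ r1 r2 r3 : ℝ, 38 / 10 < r1 ∧ (-33 / 10 < r2 ∧ r2 < -32 / 10) ∧
    (-37 / 10 < r3 ∧ r3 < -36 / 10) ∧
    ∀ z : ℂ, z ^ 3 + 3 * z ^ 2 - 15 * z - 46 = (z - r1) * (z - r2) * (z - r3) := by
  have hc : Continuous (fun x : ℝ => x ^ 3 + 3 * x ^ 2 - 15 * x - 46) := by fun_prop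
  obtain ⟨r1, ⟨h1a, h1b⟩, h1⟩ : ∃ r ∈ Set.Icc (3.8 : ℝ) 3.9,
      r ^ 3 + 3 * r ^ 2 - 15 * r - 46 = 0 := by
    apply intermediate_value_Icc (by norm_num) hc.continuousOn
    constructor <;> norm_num
  obtain ⟨r2, ⟨h2a, h2b⟩, h2⟩ : ∃ r ∈ Set.Icc (-3.3 : ℝ) (-3.2),
      r ^ 3 + 3 * r ^ 2 - 15 * r - 46 = 0 := by
    apply intermediate_value_Icc' (by norm_num) hc.continuousOn
    constructor <;> norm_num
  obtain ⟨r3, ⟨h3a, h3b⟩, h3⟩ : ∃ r ∈ Set.Icc (-3.7 : ℝ) (-3.6),
      r ^ 3 + 3 * r ^ 2 - 15 * r - 46 = 0 := by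
    apply intermediate_value_Icc (by norm_num) hc.continuousOn
    constructor <;> norm_num
  have e1 : r1 ≠ 3.8 := by rintro rfl; norm_num at h1
  have e2 : r2 ≠ -3.3 := by rintro rfl; norm_num at h2
  have e2' : r2 ≠ -3.2 := by rintro rfl; norm_num at h2
  have e3 : r3 ≠ -3.7 := by rintro rfl; norm_num at h3
  have e3' : r3 ≠ -3.6 := by rintro rfl; norm_num at h3
  have l1 := lt_of_le_of_ne h1a e1.symm
  have l2 := lt_of_le_of_ne h2a e2.symm
  have l2' := lt_of_le_of_ne h2b e2'
  have l3 := lt_of_le_of_ne h3a e3.symm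
  have l3' := lt_of_le_of_ne h3b e3'
  refine ⟨r1, r2, r3, by norm_num at l1 ⊢; linarith,
    ⟨by norm_num at l2 ⊢; linarith, by norm_num at l2' ⊢; linarith⟩,
    ⟨by norm_num at l3 ⊢; linarith, by norm_num at l3' ⊢; linarith⟩, ?_⟩
  norm_num at l1 l2 l2' l3 l3'
  -- Vieta
  have d12 : r1 - r2 ≠ 0 := by intro h; linarith
  have d13 : r1 - r3 ≠ 0 := by intro h; linarith
  have d23 : r2 - r3 ≠ 0 := by intro h; linarith
  have q12 : r1 ^ 2 + r1 * r2 + r2 ^ 2 + 3 * (r1 + r2) - 15 = 0 := by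
    have : (r1 - r2) * (r1 ^ 2 + r1 * r2 + r2 ^ 2 + 3 * (r1 + r2) - 15) = 0 := by
      linear_combination h1 - h2
    exact (mul_eq_zero.1 this).resolve_left d12
  have q13 : r1 ^ 2 + r1 * r3 + r3 ^ 2 + 3 * (r1 + r3) - 15 = 0 := by
    have : (r1 - r3) * (r1 ^ 2 + r1 * r3 + r3 ^ 2 + 3 * (r1 + r3) - 15) = 0 := by
      linear_combination h1 - h3
    exact (mul_eq_zero.1 this).resolve_left d13
  have s1 : r1 + r2 + r3 = -3 := by
    have : (r2 - r3) * (r1 + r2 + r3 + 3) = 0 := by linear_combination q12 - q13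
    have := (mul_eq_zero.1 this).resolve_left d23
    linarith
  have s2 : r1 * r2 + r1 * r3 + r2 * r3 = -15 := by
    have : r3 = -3 - r1 - r2 := by linarith
    rw [this]; linear_combination -q12
  have s3 : r1 * r2 * r3 = 46 := by
    have e : r3 = -3 - r1 - r2 := by linarith
    have e' : r2 * r3 = -15 - r1 * (r2 + r3) := by linarith
    have : r1 * r2 * r3 = r1 * (-15 - r1 * (-3 - r1)) := by
      rw [mul_assoc, e', e]; ring
    rw [this]; linear_combination h1
  intro z
  have s1c : (r1 : ℂ) + r2 + r3 = -3 := by exact_mod_cast s1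
  have s2c : (r1 : ℂ) * r2 + r1 * r3 + r2 * r3 = -15 := by exact_mod_cast s2
  have s3c : (r1 : ℂ) * r2 * r3 = 46 := by exact_mod_cast s3
  linear_combination z ^ 2 * s1c - z * s2c + s3c

/-- the matrix -/
def M : Matrix (Fin 4) (Fin 4) ℤ := !![0, 1, 0, 0; 12, 0, 1, 0; 1, 0, 0, 6; 1, 0, 2, 0]

lemma M_nonneg : ∀ p : Fin 4 × Fin 4, (0 : ℤ) ≤ M p.1 p.2 := by decide

lemma M_pos : ∀ p : Fin 4 × Fin 4, (0 : ℤ) < (M ^ 8) p.1 p.2 := by decide +kernel

lemma M_primitive : M.IsPrimitive :=
  ⟨fun i j => M_nonneg (i, j), 8, by norm_num, fun i j => M_pos (i, j)⟩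

lemma M_char (z : ℂ) : z ∈ spectrum ℂ (M.map (fun a : ℤ => (a : ℂ))) ↔
    (z - 3) * (z ^ 3 + 3 * z ^ 2 - 15 * z - 46) = 0 := by
  rw [Matrix.mem_spectrum_iff_isRoot_charpoly, IsRoot.def, Matrix.eval_charpoly]
  have : (Matrix.scalar (Fin 4) z - M.map (fun a : ℤ => (a : ℂ))).det =
      (z - 3) * (z ^ 3 + 3 * z ^ 2 - 15 * z - 46) := by
    rw [Matrix.det_succ_row_zero]
    simp [Fin.sum_univ_succ, Matrix.det_fin_three, M, Matrix.scalar_apply, Matrix.submatrix_apply,
      Fin.succAbove]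
    ring
  rw [this]


lemma realizable_four {lam : ℝ} (h : IsGreatest {x : ℝ | x ^ 3 + 3 * x ^ 2 - 15 * x - 46 = 0} lam) :
    Realizable lam 4 := by
  obtain ⟨r1, r2, r3, h1, ⟨h2, h2'⟩, ⟨h3, h3'⟩, hz⟩ := exists_roots
  have hroot : ∀ z : ℂ, z ^ 3 + 3 * z ^ 2 - 15 * z - 46 = 0 → z = r1 ∨ z = r2 ∨ z = r3 := by
    intro z h
    rw [hz] at h
    rcases mul_eq_zero.1 h with h | h
    · rcases mul_eq_zero.1 h with h | h
      · left; exact sub_eq_zero.1 h
      · right; left; exact sub_eq_zero.1 h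
    · right; right; exact sub_eq_zero.1 h
  have hlam : lam = r1 := by
    apply le_antisymm
    · have h4 : ((lam : ℝ) : ℂ) ^ 3 + 3 * (lam : ℂ) ^ 2 - 15 * lam - 46 = 0 := by
        have := h.1
        simp only [Set.mem_ofPred_eq] at this
        exact_mod_cast this
      rcases hroot lam h4 with h5 | h5 | h5
      · exact (Complex.ofReal_injective h5).le
      · have := Complex.ofReal_injective h5
        linarith
      · have := Complex.ofReal_injective h5
        linarith
    · apply h.2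
      have := hz r1
      simp only [sub_self, zero_mul] at this
      simp only [Set.mem_ofPred_eq]
      exact_mod_cast this
  subst hlam
  refine ⟨M, M_primitive, ?_⟩
  apply le_antisymm
  · rw [spectralRadius]
    refine iSup₂_le ?_
    intro z hz'
    rw [M_char] at hz'
    have hn : ‖z‖ ≤ lam := by
      rcases mul_eq_zero.1 hz' with h4 | h4
      · rw [sub_eq_zero.1 h4]
        simp; linarith
      · rcases hroot z h4 with rfl | rfl | rfl
        · rw [Complex.norm_real, Real.norm_eq_abs, abs_of_pos (by linarith)]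
        · rw [Complex.norm_real, Real.norm_eq_abs, abs_of_neg (by linarith)]; linarith
        · rw [Complex.norm_real, Real.norm_eq_abs, abs_of_neg (by linarith)]; linarith
    rw [← enorm_eq_nnnorm, ← ofReal_norm]
    exact ENNReal.ofReal_le_ofReal hn
  · have hmem : (lam : ℂ) ∈ spectrum ℂ (M.map (fun a : ℤ => (a : ℂ))) := by
      rw [M_char, hz]; ring
    have h5 : ENNReal.ofReal lam = ((‖(lam : ℂ)‖₊ : NNReal) : ENNReal) := by
      rw [← enorm_eq_nnnorm, ← ofReal_norm, Complex.norm_real, Real.norm_eq_abs,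
        abs_of_pos (by linarith)]
    rw [h5, spectralRadius]
    exact le_iSup₂ (f := fun (k : ℂ) (_ : k ∈ spectrum ℂ (M.map (fun a : ℤ => (a : ℂ)))) =>
      ((‖k‖₊ : NNReal) : ENNReal)) (lam : ℂ) hmem

section lower

attribute [local instance] Matrix.linftyOpNormedRing Matrix.linftyOpNormedAlgebra

lemma exists_eig {n : ℕ} (B : Matrix (Fin n) (Fin n) ℂ) {lam : ℝ} (h0 : 0 < lam)
    (h : spectralRadius ℂ B = ENNReal.ofReal lam) :
    ∃ μ ∈ spectrum ℂ B, ‖μ‖ = lam := by
  have hne : (spectrum ℂ B).Nonempty := by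
    by_contra hcon
    rw [Set.not_nonempty_iff_eq_empty] at hcon
    have : spectralRadius ℂ B = 0 := by
      simp [spectralRadius, hcon]
    rw [this] at h
    have := ENNReal.ofReal_pos.2 h0
    rw [← h] at this
    exact lt_irrefl _ this
  obtain ⟨k, hk, hk2⟩ := spectrum.exists_nnnorm_eq_spectralRadius_of_nonempty hne
  refine ⟨k, hk, ?_⟩
  have h2 : ((‖k‖₊ : NNReal) : ENNReal) = ENNReal.ofReal lam := by
    rw [hk2]; exact h
  rw [← enorm_eq_nnnorm, ← ofReal_norm] at h2
  exact (ENNReal.ofReal_eq_ofReal_iff (norm_nonneg _) h0.le).1 h2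

end lower


/-- second coefficient of the characteristic polynomial of a `3 × 3` matrix -/
def sec (A : Matrix (Fin 3) (Fin 3) ℤ) : ℤ :=
  A 0 0 * A 1 1 - A 0 1 * A 1 0 + (A 0 0 * A 2 2 - A 0 2 * A 2 0) + (A 1 1 * A 2 2 - A 1 2 * A 2 1)

lemma charpoly3 (A : Matrix (Fin 3) (Fin 3) ℤ) :
    A.charpoly = X ^ 3 - C A.trace * X ^ 2 + C (sec A) * X - C A.det := by
  rw [Matrix.charpoly, Matrix.det_fin_three, Matrix.trace_fin_three, sec, Matrix.det_fin_three]
  simp
  ring

lemma isRoot_of {n : ℕ} (A : Matrix (Fin n) (Fin n) ℤ) {μ : ℂ}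
    (h : μ ∈ spectrum ℂ (A.map (fun a : ℤ => (a : ℂ)))) : aeval μ A.charpoly = 0 := by
  rw [Matrix.mem_spectrum_iff_isRoot_charpoly, IsRoot.def] at h
  have h1 : (A.map (fun a : ℤ => (a : ℂ))).charpoly = A.charpoly.map (Int.castRingHom ℂ) := by
    rw [← Matrix.charpoly_map]; rfl
  rw [h1, eval_map] at h
  exact h

lemma pow_nonneg' {n : ℕ} {A : Matrix (Fin n) (Fin n) ℤ} (h : ∀ i j, 0 ≤ A i j) (k : ℕ) :
    ∀ i j, 0 ≤ (A ^ k) i j := by
  induction k with
  | zero =>
    intro i j
    rw [pow_zero, Matrix.one_apply]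
    split_ifs <;> norm_num
  | succ k ih =>
    intro i j
    rw [pow_succ, Matrix.mul_apply]
    exact Finset.sum_nonneg fun l _ => mul_nonneg (ih i l) (h l j)

lemma not_realizable {lam : ℝ}
    (h : IsGreatest {x : ℝ | x ^ 3 + 3 * x ^ 2 - 15 * x - 46 = 0} lam) {n : ℕ}
    (hn : Realizable lam n) : 4 ≤ n := by
  by_contra hn4
  push Not at hn4
  obtain ⟨A, ⟨hA, -⟩, hr⟩ := hn
  have hlam : lam ^ 3 + 3 * lam ^ 2 - 15 * lam - 46 = 0 := h.1
  have h0 : 0 < lam := by
    obtain ⟨r1, r2, r3, h1, -, -, hz⟩ := exists_roots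
    have h2 : r1 ≤ lam := by
      apply h.2
      have := hz r1
      simp only [sub_self, zero_mul] at this
      simp only [Set.mem_ofPred_eq]
      exact_mod_cast this
    linarith
  obtain ⟨μ, hμ, hμn⟩ := exists_eig _ h0 hr
  have hroot := isRoot_of A hμ
  interval_cases n
  · have : (A.map (fun a : ℤ => (a : ℂ))) = 0 := Subsingleton.elim _ _
    have h1 : A.charpoly = 1 := by
      rw [Matrix.charpoly, Matrix.det_isEmpty]
    rw [h1] at hroot
    simp at hroot
  · have h1 : A.charpoly = X - C (A 0 0) := by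
      rw [Matrix.charpoly, Matrix.det_fin_one]; simp
    rw [h1] at hroot
    simp only [map_sub, aeval_X, aeval_C, algebraMap_int_eq, Int.coe_castRingHom] at hroot
    exact excl hlam (t := A 0 0) (s := 0) (d := 0) (hA 0 0) (by omega) (μ := μ)
      (by push_cast; linear_combination μ ^ 2 * hroot) hμn
  · have h1 := Matrix.charpoly_fin_two A
    rw [h1] at hroot
    simp only [map_sub, map_add, map_mul, map_pow, aeval_X, aeval_C, algebraMap_int_eq,
      Int.coe_castRingHom] at hroot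
    refine excl hlam (t := A.trace) (s := A.det) (d := 0) ?_ (by omega) (μ := μ)
      (by rw [Int.cast_zero]; linear_combination μ * hroot) hμn
    rw [Matrix.trace_fin_two]
    exact add_nonneg (hA 0 0) (hA 1 1)
  · rw [charpoly3] at hroot
    simp only [map_sub, map_add, map_mul, map_pow, aeval_X, aeval_C, algebraMap_int_eq,
      Int.coe_castRingHom] at hroot
    refine excl hlam (t := A.trace) (s := sec A) (d := A.det) ?_ ?_ (μ := μ) hroot hμn
    · rw [Matrix.trace_fin_three]
      exact add_nonneg (add_nonneg (hA 0 0) (hA 1 1)) (hA 2 2)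
    · rintro ⟨e1, e2, e3⟩
      have hc := Matrix.aeval_self_charpoly A
      rw [charpoly3, e1, e2, e3] at hc
      simp only [map_sub, map_add, map_mul, aeval_X_pow, aeval_C, aeval_X] at hc
      have hc2 : A ^ 3 = (3 : ℤ) • A ^ 2 + (15 : ℤ) • A - (46 : ℤ) • (1 : Matrix (Fin 3) (Fin 3) ℤ) := by
        have e : ∀ k : ℤ, (algebraMap ℤ (Matrix (Fin 3) (Fin 3) ℤ)) k =
            k • (1 : Matrix (Fin 3) (Fin 3) ℤ) := fun k => Algebra.algebraMap_eq_smul_one k
        rw [e, e, e] at hc
        simp only [smul_mul_assoc, one_mul] at hc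
        rw [← sub_eq_zero, ← hc]
        module
      have hrec : ∀ k : ℕ, (A ^ (k + 3)).trace =
          3 * (A ^ (k + 2)).trace + 15 * (A ^ (k + 1)).trace - 46 * (A ^ k).trace := by
        intro k
        have : A ^ (k + 3) = (3 : ℤ) • A ^ (k + 2) + (15 : ℤ) • A ^ (k + 1) - (46 : ℤ) • A ^ k := by
          rw [pow_add, hc2, mul_sub, mul_add, mul_smul_comm, mul_smul_comm, mul_smul_comm,
            ← pow_add, ← pow_succ, mul_one]
        rw [this, Matrix.trace_sub, Matrix.trace_add, Matrix.trace_smul, Matrix.trace_smul,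
          Matrix.trace_smul]
        simp
      have t0 : (A ^ 0).trace = 3 := by simp
      have t1 : (A ^ 1).trace = 3 := by rw [pow_one, e1]
      have t2 : (A ^ 2).trace = 39 := by
        have e4 : (A ^ 2).trace = A.trace ^ 2 - 2 * sec A := by
          rw [pow_two, Matrix.trace_fin_three, Matrix.trace_fin_three, sec]
          simp only [Matrix.mul_apply, Fin.sum_univ_three]
          ring
        rw [e4, e1, e2]; norm_num
      have t3 : (A ^ 3).trace = 24 := by
        have h3 := hrec 0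
        simp only [Nat.zero_add, t0, t1, t2] at h3
        rw [h3]; norm_num
      have t4 : (A ^ 4).trace = 519 := by
        have h3 := hrec 1
        simp only [Nat.reduceAdd, t1, t2, t3] at h3
        rw [h3]; norm_num
      have t5 : (A ^ 5).trace = 123 := by
        have h3 := hrec 2
        simp only [Nat.reduceAdd, t2, t3, t4] at h3
        rw [h3]; norm_num
      have t6 : (A ^ 6).trace = 7050 := by
        have h3 := hrec 3
        simp only [Nat.reduceAdd, t3, t4, t5] at h3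
        rw [h3]; norm_num
      have t7 : (A ^ 7).trace = -879 := by
        have h3 := hrec 4
        simp only [Nat.reduceAdd, t4, t5, t6] at h3
        rw [h3]; norm_num
      have h7 : 0 ≤ (A ^ 7).trace := by
        rw [Matrix.trace_fin_three]
        exact add_nonneg (add_nonneg (pow_nonneg' hA 7 0 0) (pow_nonneg' hA 7 1 1))
          (pow_nonneg' hA 7 2 2)
      rw [t7] at h7
      norm_num at h7

/-- The Perron-Frobenius degree of the largest root `lam` of `t³ + 3t² - 15t - 46` is `4`: the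
least `n` such that some primitive `n × n` matrix with nonnegative integer entries has spectral
radius `lam` is `n = 4`. -/
theorem result : ∃ lam : ℝ, IsGreatest {x : ℝ | x ^ 3 + 3 * x ^ 2 - 15 * x - 46 = 0} lam ∧
    IsLeast {n : ℕ | Realizable lam n} 4 := by
  obtain ⟨r1, r2, r3, h1, ⟨h2, h2'⟩, ⟨h3, h3'⟩, hz⟩ := exists_roots
  have hg : IsGreatest {x : ℝ | x ^ 3 + 3 * x ^ 2 - 15 * x - 46 = 0} r1 := by
    constructor
    · have := hz r1
      simp only [sub_self, zero_mul] at this
      simp only [Set.mem_ofPred_eq]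
      exact_mod_cast this
    · intro x hx
      simp only [Set.mem_ofPred_eq] at hx
      have h4 : ((x : ℝ) : ℂ) ^ 3 + 3 * (x : ℂ) ^ 2 - 15 * x - 46 = 0 := by exact_mod_cast hx
      rw [hz] at h4
      have h5 : (x - r1) * (x - r2) * (x - r3) = 0 := by exact_mod_cast h4
      rcases mul_eq_zero.1 h5 with h6 | h6
      · rcases mul_eq_zero.1 h6 with h7 | h7 <;> linarith
      · linarith
  exact ⟨r1, hg, realizable_four hg, fun n hn => not_realizable hg hn⟩

end Pool.Agent.Results.MP_e10d7f_nt.PFDegree
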